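import Pool.Agent.DV.Exit

/-!
# DV-Cut: the one step lemma (two statements)

`cover`: in the situation of `exit_path`, with the family pairwise disjoint, one member `Q a` can be
replaced by a ray `R` with the same start, through `z = L 0`.
Proof: `exit_path` gives `M, a, j, p`.  Walk from `Q a 0` along `Q a` to `Q a j`, then `p.reverse` to
`z = M 0`: call it `w`; `extract` for the ray `M`, `j = 0` and `w` gives `R`; `M b ∈ w.support` forces
`M b = z` (the vertices of `w` are on `Q a`, which `M` avoids, or on `p`, where `M` meets only `z`), so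
`z = R a'`.  `R` is in `ω` by `mem_of_tail`.  Its vertices are on `Q a`, `p` or `M`, hence not in `D`
and not on `Q b`, `b ≠ a`.

`one_step`: PROOF.  Let `P = {k | R k ∈ Must ω D (R 0)}`; `0 ∈ P`.
If some `k ∈ P` satisfies the hypothesis `h2` for `L :=` the tail of `R` from `k`, use `cover`.
Otherwise for every `k ∈ P` there is `c ≠ R k` with: all `W ∈ ω` from `R k` avoiding `D` pass through
`c`; in particular the tail of `R` from `k` does, so `c = R k'` with `k' > k`; and every `W ∈ ω` from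
`R 0` avoiding `D` passes through `R k`, and its tail from there passes through `c`; so `k' ∈ P`.
Hence `P` is infinite.  Now `joined_off` for `R`, `Q a` (any `a`) and `D` gives a walk `p` from some
`R m` to some `Q a n` avoiding `D`; let `w` be the walk along `R` from `R 0` to `R m` followed by `p`.
`extract` for the ray `Q a` gives a ray `r'` from `R 0`, `r' ∈ ω`, avoiding `D`, with all its vertices
in `w.support` or on `Q a`.  For every `k ∈ P` the vertex `R k` is on `r'`, not on `Q a`, hence in the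
finite set `w.support`; contradiction, since `R` is injective and `P` infinite.
-/

namespace DV

variable {V : Type*}

private theorem cut_walk {G : SimpleGraph V} {r : ℕ → V} (hr : ∀ n, G.Adj (r n) (r (n + 1)))
    (j : ℕ) : ∃ w : G.Walk (r 0) (r j), ∀ v ∈ w.support, ∃ i, v = r i := by
  induction j with
  | zero =>
    refine ⟨SimpleGraph.Walk.nil, fun v hv => ⟨0, ?_⟩⟩
    rw [SimpleGraph.Walk.support_nil, List.mem_singleton] at hv
    exact hv
  | succ j ih =>
    obtain ⟨w, hw⟩ := ih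
    refine ⟨w.concat (hr j), fun v hv => ?_⟩
    rw [SimpleGraph.Walk.support_concat, List.mem_append] at hv
    rcases hv with hv | hv
    · exact hw v hv
    · exact ⟨j + 1, List.mem_singleton.1 hv⟩

theorem cover {G : SimpleGraph V} {ω : Set (ℕ → V)} (hω : IsEnd G ω) {ι : Type*} [Nonempty ι]
    (D : Set V) (hD : D.Finite) (Q : ι → ℕ → V) (hQ : ∀ a, Q a ∈ ω) (hQD : ∀ a i, Q a i ∉ D)
    (hdis : ∀ a b, a ≠ b → ∀ i j, Q a i ≠ Q b j)
    (L : ℕ → V) (hL : L ∈ ω) (hLD : ∀ i, L i ∉ D) (hLQ : ∀ i a j, L i ≠ Q a j)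
    (h2 : ∀ c, c ≠ L 0 → ∃ W ∈ ω, W 0 = L 0 ∧ (∀ i, W i ∉ D) ∧ ∀ i, W i ≠ c) :
    ∃ (a : ι) (R : ℕ → V), R ∈ ω ∧ R 0 = Q a 0 ∧ (∀ i, R i ∉ D) ∧
      (∀ b, b ≠ a → ∀ i j, R i ≠ Q b j) ∧ ∃ i, R i = L 0 := by
  obtain ⟨M, hM, hM0, hMD, hMQ, a, j, p, _, hpD, hpM, hpQ⟩ :=
    exit_path hω D hD Q hQ hQD L hL hLD hLQ h2
  have hMr := end_isRay hω hM
  obtain ⟨w₁, hw₁⟩ := cut_walk (end_isRay hω (hQ a)).2 j
  let w : G.Walk (Q a 0) (M 0) := (w₁.append p.reverse).copy rfl hM0.symm
  have hw : ∀ v ∈ w.support, (∃ i, v = Q a i) ∨ v ∈ p.support := by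
    intro v hv
    have hv' : v ∈ (w₁.append p.reverse).support := by
      have h := hv
      simp only [w, SimpleGraph.Walk.support_copy] at h
      exact h
    rw [SimpleGraph.Walk.mem_support_append_iff, SimpleGraph.Walk.support_reverse,
      List.mem_reverse] at hv'
    rcases hv' with h | h
    · exact Or.inl (hw₁ v h)
    · exact Or.inr h
  obtain ⟨R, a', b', hR, hR0, _, hb', htail, hseg⟩ := extract hMr w
  have hz : M b' = L 0 := by
    rcases hw _ hb' with ⟨i, hi⟩ | h
    · exact absurd hi (hMQ b' a i)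
    · by_contra hne
      exact hpM _ h hne b' rfl
  have hcase : ∀ i, (∃ k, R i = Q a k) ∨ R i ∈ p.support ∨ ∃ k, R i = M k := by
    intro i
    rcases le_total i a' with h | h
    · rcases hw _ (hseg i h) with h' | h'
      · exact Or.inl h'
      · exact Or.inr (Or.inl h')
    · obtain ⟨k, rfl⟩ := Nat.exists_eq_add_of_le h
      exact Or.inr (Or.inr ⟨b' + k, htail k⟩)
  refine ⟨a, R, mem_of_tail hω hM hR a' b' htail, hR0, ?_, ?_, a', ?_⟩
  · intro i
    rcases hcase i with ⟨k, hk⟩ | h | ⟨k, hk⟩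
    · rw [hk]
      exact hQD a k
    · exact hpD _ h
    · rw [hk]
      exact hMD k
  · intro b hb i k
    rcases hcase i with ⟨l, hl⟩ | h | ⟨l, hl⟩
    · rw [hl]
      exact hdis a b hb.symm l k
    · by_cases hj : R i = Q a j
      · rw [hj]
        exact hdis a b hb.symm j k
      · exact hpQ _ h hj b k
    · rw [hl]
      exact hMQ l b k
  · have h := htail 0
    rw [Nat.add_zero, Nat.add_zero] at h
    rw [h, hz]

theorem one_step {G : SimpleGraph V} {ω : Set (ℕ → V)} (hω : IsEnd G ω) {ι : Type*} [Nonempty ι]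
    (D : Set V) (hD : D.Finite) (Q : ι → ℕ → V) (hQ : ∀ a, Q a ∈ ω) (hQD : ∀ a i, Q a i ∉ D)
    (hdis : ∀ a b, a ≠ b → ∀ i j, Q a i ≠ Q b j)
    (R : ℕ → V) (hR : R ∈ ω) (hRD : ∀ i, R i ∉ D) (hRQ : ∀ i a j, R i ≠ Q a j) :
    ∃ (a : ι) (R' : ℕ → V), R' ∈ ω ∧ R' 0 = Q a 0 ∧ (∀ i, R' i ∉ D) ∧
      (∀ b, b ≠ a → ∀ i j, R' i ≠ Q b j) ∧ ∃ i, R' i ∈ Must ω D (R 0) := by
  classical
  by_cases hA : ∃ k, R k ∈ Must ω D (R 0) ∧
      ∀ c, c ≠ R k → ∃ W ∈ ω, W 0 = R k ∧ (∀ i, W i ∉ D) ∧ ∀ i, W i ≠ c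
  · obtain ⟨k, hk, h2⟩ := hA
    obtain ⟨a, R', h1, h3, h4, h5, i, hi⟩ := cover hω D hD Q hQ hQD hdis
      (fun i => R (k + i)) (tail_mem hω hR k) (fun i => hRD (k + i)) (fun i => hRQ (k + i)) h2
    refine ⟨a, R', h1, h3, h4, h5, i, ?_⟩
    rw [hi]
    exact hk
  · exfalso
    have hstep : ∀ k, R k ∈ Must ω D (R 0) → ∃ k', k < k' ∧ R k' ∈ Must ω D (R 0) := by
      intro k hk
      have hB : ∃ c, c ≠ R k ∧ ∀ W ∈ ω, W 0 = R k → (∀ i, W i ∉ D) → ∃ i, W i = c := by
        by_contra hcon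
        apply hA
        refine ⟨k, hk, fun c hc => ?_⟩
        by_contra hcon2
        apply hcon
        refine ⟨c, hc, fun W hW hW0 hWD => ?_⟩
        by_contra hcon3
        apply hcon2
        exact ⟨W, hW, hW0, hWD, fun i hi => hcon3 ⟨i, hi⟩⟩
      obtain ⟨c, hc, hall⟩ := hB
      obtain ⟨i, hi⟩ := hall (fun i => R (k + i)) (tail_mem hω hR k) rfl fun i => hRD (k + i)
      have hi' : R (k + i) = c := hi
      have hi0 : i ≠ 0 := by
        rintro rfl
        exact hc hi'.symm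
      refine ⟨k + i, by omega, ?_⟩
      rw [hi']
      intro W hW hW0 hWD
      obtain ⟨i₁, hi₁⟩ := hk W hW hW0 hWD
      obtain ⟨i₂, hi₂⟩ := hall (fun i => W (i₁ + i)) (tail_mem hω hW i₁) hi₁
        fun i => hWD (i₁ + i)
      exact ⟨i₁ + i₂, hi₂⟩
    have hbig : ∀ n : ℕ, ∃ k, n ≤ k ∧ R k ∈ Must ω D (R 0) := by
      intro n
      induction n with
      | zero => exact ⟨0, le_rfl, fun W _ hW0 _ => ⟨0, hW0⟩⟩
      | succ n ih =>
        obtain ⟨k, hk, hkP⟩ := ih
        obtain ⟨k', hk', hkP'⟩ := hstep k hkP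
        exact ⟨k', by omega, hkP'⟩
    obtain ⟨a⟩ := (inferInstance : Nonempty ι)
    have hRr := end_isRay hω hR
    have hQr := end_isRay hω (hQ a)
    obtain ⟨N, hN⟩ := joined_off hω hR (hQ a) D hD
    obtain ⟨p, hp⟩ := hN N N le_rfl le_rfl
    obtain ⟨w₁, hw₁⟩ := cut_walk hRr.2 N
    obtain ⟨r', a', b', hr', hr0, _, hb', htail, hseg⟩ := extract hQr (w₁.append p)
    have hr'ω := mem_of_tail hω (hQ a) hr' a' b' htail
    have hw : ∀ v ∈ (w₁.append p).support, v ∉ D := by
      intro v hv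
      rw [SimpleGraph.Walk.mem_support_append_iff] at hv
      rcases hv with h | h
      · obtain ⟨i, hi⟩ := hw₁ v h
        rw [hi]
        exact hRD i
      · exact hp v h
    have hr'D : ∀ i, r' i ∉ D := by
      intro i
      rcases le_total i a' with h | h
      · exact hw _ (hseg i h)
      · obtain ⟨k, rfl⟩ := Nat.exists_eq_add_of_le h
        rw [htail k]
        exact hQD a _
    have hmem : ∀ k, R k ∈ Must ω D (R 0) → R k ∈ (w₁.append p).support := by
      intro k hk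
      obtain ⟨i, hi⟩ := hk r' hr'ω hr0 hr'D
      rcases le_total i a' with h | h
      · rw [← hi]
        exact hseg i h
      · obtain ⟨l, rfl⟩ := Nat.exists_eq_add_of_le h
        rw [htail l] at hi
        exact absurd hi.symm (hRQ k a _)
    have hinf : {k | R k ∈ Must ω D (R 0)}.Infinite := by
      intro hfin
      obtain ⟨B, hB⟩ := hfin.bddAbove
      obtain ⟨k, hk, hkP⟩ := hbig (B + 1)
      have := hB hkP
      omega
    have hfin2 : {v | v ∈ (w₁.append p).support}.Finite := List.finite_toSet _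
    exact hinf (Set.Finite.subset (hfin2.preimage hRr.1.injOn) fun k hk => hmem k hk)

end DV
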