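import Mathlib

/-!
# Project DV (MP_23b168_co): end-devouring families of rays.  Definitions.

Rays are injective maps `r : ℕ → V` with consecutive values adjacent.  Ends are equivalence classes
of rays.
-/

namespace DV

variable {V : Type*}

/-- A ray of `G`: a one-way infinite path `r 0, r 1, r 2, …` with pairwise distinct vertices. -/
def IsRay (G : SimpleGraph V) (r : ℕ → V) : Prop :=
  Function.Injective r ∧ ∀ n, G.Adj (r n) (r (n + 1))

/-- `x` and `y` lie in the same component of `G - S`. -/
def Joined (G : SimpleGraph V) (S : Set V) (x y : V) : Prop :=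
  ∃ p : G.Walk x y, ∀ v ∈ p.support, v ∉ S

/-- Equivalence of rays: for every finite set `S` they have tails in the same component of `G - S`. -/
def Equivalent (G : SimpleGraph V) (r q : ℕ → V) : Prop :=
  ∀ S : Set V, S.Finite → ∃ N, ∀ m n, N ≤ m → N ≤ n → Joined G S (r m) (q n)

/-- An end of `G`: an equivalence class of rays. -/
def IsEnd (G : SimpleGraph V) (ω : Set (ℕ → V)) : Prop :=
  ∃ r, IsRay G r ∧ ω = {q | IsRay G q ∧ Equivalent G r q}

/-- The two rays have a common vertex. -/
def Meets (q r : ℕ → V) : Prop := ∃ i j, q i = r j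

/-- The members of `K` are pairwise disjoint. -/
def Disjoint' (K : Set (ℕ → V)) : Prop :=
  ∀ q ∈ K, ∀ r ∈ K, q ≠ r → ¬ Meets q r

/-- The set of starting vertices. -/
def starts (K : Set (ℕ → V)) : Set V := (fun q => q 0) '' K

/-- `D` devours `ω`: every ray of `ω` meets a member of `D`. -/
def Devours (D ω : Set (ℕ → V)) : Prop := ∀ q ∈ ω, ∃ r ∈ D, Meets q r

/-- A countable end: it is devoured by some countable set of rays. -/
def CountableEnd (G : SimpleGraph V) (ω : Set (ℕ → V)) : Prop :=
  ∃ D : Set (ℕ → V), D.Countable ∧ (∀ d ∈ D, IsRay G d) ∧ Devours D ω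

/-- The vertices through which every `ω`-ray from `u` which avoids `D` passes. -/
def Must (ω : Set (ℕ → V)) (D : Set V) (u : V) : Set V :=
  {s | ∀ W ∈ ω, W 0 = u → (∀ i, W i ∉ D) → ∃ i, W i = s}

end DV
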