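import Pool.Agent.DV.Ray

/-!
# DV-Exit: the exit lemma (one statement)

`Q` is a nonempty family of rays of the end, `L` a ray of the end disjoint from all of them, all
avoiding the finite set `D`.  Suppose no vertex `c ≠ z := L 0` lies on all the rays of the end which
start at `z` and avoid `D` (hypothesis `h2`).  Then there are a ray `M` of the end and a path `p`
from `z` to the family, disjoint except in `z`, avoiding `D`.

PROOF (no Menger).  `Good i`: there are a ray `M ∈ ω` with `M 0 = L i` and a walk `E` from a neighbour of `L i` to some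
`Q a j`, such that `M` avoids `D`, the family and `{L 0, …, L (i-1)}`, and `E` avoids `D`, `M` and `{L 0, …, L (i-1)}`.
(1) `good_ex`: `Good x` for some `x` (last exit from `L` of a walk from `L` to `Q a` off `D`).
(2) `good_down`: if `Good i` and `0 < i` then `Good i'` for some `i' < i`.  Take `W ∈ ω` from `L 0` avoiding `D` and `L i`
    (`h2`), `T = (family) ∪ M ∪ E`, `t` the first index with `W t ∈ T` (if there is one), `L i'` the last exit of `W [0, t]`
    from `{L 0, …, L (i-1)}`.  Cases: no `t`: new `M` along `W`; `W t` in the family: new `E` along `W`; `W t ∈ M`: new `M`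
    along `W` and then `M`; `W t ∈ E`: new `E` along `W` and then `E`.  The other object is prolonged by `L i', …, L i`.
(3) So `Good 0`; finally the walk is cut at its first vertex on the family (`first_hit`).
-/

namespace DV

variable {V : Type*}

/-- a walk along a ray -/
private theorem seg {G : SimpleGraph V} {r : ℕ → V} (hr : ∀ n, G.Adj (r n) (r (n + 1))) (m : ℕ) :
    ∀ n, m ≤ n → ∃ p : G.Walk (r m) (r n), ∀ v ∈ p.support, ∃ k, m ≤ k ∧ k ≤ n ∧ v = r k := by
  intro n h
  induction n, h using Nat.le_induction with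
  | base =>
    refine ⟨SimpleGraph.Walk.nil, fun v hv => ⟨m, le_rfl, le_rfl, ?_⟩⟩
    simpa using hv
  | succ n h ih =>
    obtain ⟨p, hp⟩ := ih
    refine ⟨p.append (SimpleGraph.Walk.cons (hr n) SimpleGraph.Walk.nil), fun v hv => ?_⟩
    rw [SimpleGraph.Walk.mem_support_append_iff] at hv
    rcases hv with hv | hv
    · obtain ⟨k, h1, h2, h3⟩ := hp v hv
      exact ⟨k, h1, by omega, h3⟩
    · rw [SimpleGraph.Walk.support_cons, SimpleGraph.Walk.support_nil, List.mem_cons,
        List.mem_singleton] at hv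
      rcases hv with rfl | rfl
      · exact ⟨n, h, by omega, rfl⟩
      · exact ⟨n + 1, by omega, le_rfl, rfl⟩

/-- the last exit from a set -/
private theorem last_exit {G : SimpleGraph V} {A : Set V} {x y : V} (p : G.Walk x y) (hy : y ∉ A)
    (h : ∃ v ∈ p.support, v ∈ A) : ∃ u ∈ A, ∃ u', G.Adj u u' ∧ u ∈ p.support ∧
      ∃ q : G.Walk u' y, ∀ v ∈ q.support, v ∈ p.support ∧ v ∉ A := by
  induction p with
  | nil =>
    obtain ⟨v, hv, hA⟩ := h
    rw [SimpleGraph.Walk.support_nil, List.mem_singleton] at hv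
    subst hv
    exact absurd hA hy
  | @cons a b c hab p ih =>
    by_cases h1 : ∃ v ∈ p.support, v ∈ A
    · obtain ⟨u, hu, u', huu, hup, q, hq⟩ := ih hy h1
      exact ⟨u, hu, u', huu, List.mem_cons_of_mem _ hup, q, fun v hv =>
        ⟨List.mem_cons_of_mem _ (hq v hv).1, (hq v hv).2⟩⟩
    · push Not at h1
      obtain ⟨v, hv, hA⟩ := h
      rw [SimpleGraph.Walk.support_cons, List.mem_cons] at hv
      rcases hv with rfl | hv
      · exact ⟨v, hA, b, hab, List.mem_cons_self, p, fun w hw =>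
          ⟨List.mem_cons_of_mem _ hw, h1 w hw⟩⟩
      · exact absurd hA (h1 v hv)

/-- the first hit of a set -/
private theorem first_hit {G : SimpleGraph V} {F : Set V} {x y : V} (p : G.Walk x y)
    (hy : y ∈ F) : ∃ z ∈ F, ∃ q : G.Walk x z, q.IsPath ∧ (∀ v ∈ q.support, v ∈ p.support) ∧
      ∀ v ∈ q.support, v ∈ F → v = z := by
  classical
  induction p with
  | nil =>
    refine ⟨_, hy, SimpleGraph.Walk.nil, SimpleGraph.Walk.IsPath.nil, fun v hv => hv,
      fun v hv _ => ?_⟩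
    simpa using hv
  | @cons a b c hab p ih =>
    by_cases ha : a ∈ F
    · refine ⟨a, ha, SimpleGraph.Walk.nil, SimpleGraph.Walk.IsPath.nil, fun v hv => ?_,
        fun v hv _ => ?_⟩
      · rw [SimpleGraph.Walk.support_nil, List.mem_singleton] at hv
        rw [hv]
        exact List.mem_cons_self
      · simpa using hv
    · obtain ⟨z, hz, q, -, hq2, hq3⟩ := ih hy
      refine ⟨z, hz, (SimpleGraph.Walk.cons hab q).bypass, SimpleGraph.Walk.bypass_isPath _,
        fun v hv => ?_, fun v hv hF => ?_⟩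
      · have h1 := SimpleGraph.Walk.support_bypass_subset_support _ hv
        rw [SimpleGraph.Walk.support_cons, List.mem_cons] at h1 ⊢
        rcases h1 with h1 | h1
        · exact Or.inl h1
        · exact Or.inr (hq2 v h1)
      · have h1 := SimpleGraph.Walk.support_bypass_subset_support _ hv
        rw [SimpleGraph.Walk.support_cons, List.mem_cons] at h1
        rcases h1 with rfl | h1
        · exact absurd hF ha
        · exact hq3 v h1 hF

/-- a walk followed by a ray of the end contains a ray of the end -/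
private theorem extend {G : SimpleGraph V} {ω : Set (ℕ → V)} (hω : IsEnd G ω) {r : ℕ → V}
    (hr : r ∈ ω) {x : V} {j : ℕ} (p : G.Walk x (r j)) :
    ∃ q ∈ ω, q 0 = x ∧ ∀ i, q i ∈ p.support ∨ ∃ k, j ≤ k ∧ q i = r k := by
  obtain ⟨q, a, b, h1, h2, h3, h4, h5, h6⟩ := extract (end_isRay hω hr) p
  refine ⟨q, mem_of_tail hω hr h1 a b h5, h2, fun i => ?_⟩
  rcases le_or_gt i a with h | h
  · exact Or.inl (h6 i h)
  · refine Or.inr ⟨b + (i - a), by omega, ?_⟩
    have h7 := h5 (i - a)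
    rwa [Nat.add_sub_cancel' h.le] at h7

/-- the invariant of the descent -/
private def Good (G : SimpleGraph V) (ω : Set (ℕ → V)) {ι : Type*} (D : Set V) (Q : ι → ℕ → V)
    (L : ℕ → V) (i : ℕ) : Prop :=
  ∃ M ∈ ω, M 0 = L i ∧ (∀ k, M k ∉ D) ∧ (∀ k a j, M k ≠ Q a j) ∧ (∀ k, ∀ l < i, M k ≠ L l) ∧
    ∃ (a : ι) (j : ℕ) (y : V) (E : G.Walk y (Q a j)), G.Adj (L i) y ∧
      ∀ v ∈ E.support, v ∉ D ∧ (∀ l < i, v ≠ L l) ∧ ∀ k, M k ≠ v

private theorem good_ex {G : SimpleGraph V} {ω : Set (ℕ → V)} (hω : IsEnd G ω) {ι : Type*}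
    [Nonempty ι] (D : Set V) (hD : D.Finite) (Q : ι → ℕ → V) (hQ : ∀ a, Q a ∈ ω)
    (L : ℕ → V) (hL : L ∈ ω) (hLD : ∀ i, L i ∉ D) (hLQ : ∀ i a j, L i ≠ Q a j) :
    ∃ i, Good G ω D Q L i := by
  obtain ⟨a⟩ := ‹Nonempty ι›
  have hLi := (end_isRay hω hL).1
  obtain ⟨N, hN⟩ := joined_off hω hL (hQ a) D hD
  obtain ⟨p, hp⟩ := hN N N le_rfl le_rfl
  obtain ⟨u, ⟨x, rfl⟩, u', huu, -, q, hq⟩ := last_exit (A := Set.range L) p
    (by rintro ⟨i, hi⟩; exact hLQ _ _ _ hi) ⟨L N, p.start_mem_support, N, rfl⟩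
  refine ⟨x, fun i => L (x + i), tail_mem hω hL x, rfl, fun k => hLD _, fun k b j => hLQ _ _ _,
    fun k l hl h => ?_, a, N, u', q, huu, fun v hv => ⟨hp v (hq v hv).1, fun l _ h => ?_,
      fun k h => ?_⟩⟩
  · have := hLi h
    omega
  · exact (hq v hv).2 ⟨l, h.symm⟩
  · exact (hq v hv).2 ⟨x + k, h⟩

private theorem good_down {G : SimpleGraph V} {ω : Set (ℕ → V)} (hω : IsEnd G ω) {ι : Type*}
    (D : Set V) (Q : ι → ℕ → V) (L : ℕ → V) (hL : L ∈ ω) (hLD : ∀ i, L i ∉ D)
    (hLQ : ∀ i a j, L i ≠ Q a j)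
    (h2 : ∀ c, c ≠ L 0 → ∃ W ∈ ω, W 0 = L 0 ∧ (∀ i, W i ∉ D) ∧ ∀ i, W i ≠ c)
    {i : ℕ} (hi : 0 < i) (h : Good G ω D Q L i) : ∃ i' < i, Good G ω D Q L i' := by
  classical
  obtain ⟨M, hM, hM0, hMD, hMQ, hML, a, j, y, E, hy, hE⟩ := h
  have hLr := end_isRay hω hL
  have hMr := end_isRay hω hM
  obtain ⟨W, hW, hW0, hWD, hWc⟩ := h2 (L i) (fun e => by
    have := hLr.1 e
    omega)
  have hWr := end_isRay hω hW
  -- the path from `L i'` through `L i` to `E`
  have newE : ∀ i', i' < i → ∃ E' : G.Walk (L (i' + 1)) (Q a j), ∀ v ∈ E'.support,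
      (∃ l, i' < l ∧ l ≤ i ∧ v = L l) ∨ v ∈ E.support := by
    intro i' hi'
    obtain ⟨p, hp⟩ := seg hLr.2 (i' + 1) i hi'
    refine ⟨p.append (SimpleGraph.Walk.cons hy E), fun v hv => ?_⟩
    rw [SimpleGraph.Walk.mem_support_append_iff, SimpleGraph.Walk.support_cons,
      List.mem_cons] at hv
    rcases hv with hv | hv | hv
    · obtain ⟨k, h1, h3, h4⟩ := hp v hv
      exact Or.inl ⟨k, h1, h3, h4⟩
    · exact Or.inl ⟨i, hi', le_rfl, hv⟩
    · exact Or.inr hv
  -- the ray from `L i'` through `L i` to `M`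
  have newM : ∀ i', i' < i → ∃ M' ∈ ω, M' 0 = L i' ∧ ∀ k, (∃ l, i' ≤ l ∧ l ≤ i ∧ M' k = L l) ∨
      ∃ m, M' k = M m := by
    intro i' hi'
    obtain ⟨p, hp⟩ := seg hLr.2 i' i hi'.le
    obtain ⟨M', h1, h3, h4⟩ := extend hω hM (p.copy rfl hM0.symm)
    refine ⟨M', h1, h3, fun k => ?_⟩
    rcases h4 k with h5 | ⟨m, -, h5⟩
    · rw [SimpleGraph.Walk.support_copy] at h5
      obtain ⟨l, h6, h7, h8⟩ := hp _ h5
      exact Or.inl ⟨l, h6, h7, h8⟩
    · exact Or.inr ⟨m, h5⟩
  -- the descent when the ray is rerouted through `q`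
  have resM : ∀ i', i' < i → ∀ M' ∈ ω, M' 0 = L i' → (∀ k, M' k ∉ D) → (∀ k b m, M' k ≠ Q b m) →
      (∀ k, ∀ l ≤ i, M' k = L l → l = i') → (∀ k, M' k ∉ E.support) →
      Good G ω D Q L i' := by
    intro i' hi' M' h1 h3 h4 h5 h6 h7
    obtain ⟨E', hE'⟩ := newE i' hi'
    refine ⟨M', h1, h3, h4, h5, fun k l hl e => ?_, a, j, L (i' + 1), E', hLr.2 i',
      fun v hv => ?_⟩
    · have := h6 k l (by omega) e
      omega
    · rcases hE' v hv with ⟨l, h8, h9, rfl⟩ | h8
      · refine ⟨hLD _, fun l' hl' e => ?_, fun k e => ?_⟩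
        · have := hLr.1 e
          omega
        · have := h6 k l h9 e
          omega
      · refine ⟨(hE v h8).1, fun l' hl' => (hE v h8).2.1 l' (by omega), fun k e => ?_⟩
        exact h7 k (e ▸ h8)
  -- the descent when the path is rerouted through `q`
  have resE : ∀ i', i' < i → ∀ (b : ι) (m : ℕ) (u' : V) (q : G.Walk u' (Q b m)),
      G.Adj (L i') u' → (∀ v ∈ q.support, v ∉ D) → (∀ v ∈ q.support, ∀ l ≤ i, v ≠ L l) →
      (∀ v ∈ q.support, ∀ k, M k ≠ v) → Good G ω D Q L i' := by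
    intro i' hi' b m u' q h1 h3 h4 h5
    obtain ⟨M', h6, h7, h8⟩ := newM i' hi'
    refine ⟨M', h6, h7, fun k => ?_, fun k b m => ?_, fun k l hl e => ?_, b, m, u', q, h1,
      fun v hv => ⟨h3 v hv, fun l hl => h4 v hv l (by omega), fun k e => ?_⟩⟩
    · rcases h8 k with ⟨l, -, -, e⟩ | ⟨n, e⟩
      · rw [e]
        exact hLD _
      · rw [e]
        exact hMD _
    · rcases h8 k with ⟨l, -, -, e⟩ | ⟨n, e⟩
      · rw [e]
        exact hLQ _ _ _
      · rw [e]
        exact hMQ _ _ _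
    · rcases h8 k with ⟨l', h9, -, e'⟩ | ⟨n, e'⟩
      · rw [e'] at e
        have := hLr.1 e
        omega
      · rw [e'] at e
        exact hML n l (by omega) e
    · rcases h8 k with ⟨l', h9, h10, e'⟩ | ⟨n, e'⟩
      · exact h4 v hv l' h10 (by rw [← e, e'])
      · exact h5 v hv n (by rw [← e, e'])
  set A : Set V := {v | ∃ l < i, v = L l} with hA
  set T : Set V := {v | (∃ b k, v = Q b k) ∨ (∃ k, M k = v) ∨ v ∈ E.support} with hT
  have hAT : ∀ v ∈ T, v ∉ A := by
    rintro v hv ⟨l, hl, rfl⟩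
    rcases hv with ⟨b, k, e⟩ | ⟨k, e⟩ | e
    · exact hLQ _ _ _ e
    · exact hML k l hl e
    · exact (hE _ e).2.1 l hl rfl
  have h0A : W 0 ∈ A := ⟨0, hi, hW0⟩
  by_cases hex : ∃ t, W t ∈ T
  · have ht := Nat.find_spec hex
    have htm : ∀ k, k < Nat.find hex → W k ∉ T := fun k hk => Nat.find_min hex hk
    generalize Nat.find hex = t at ht htm
    obtain ⟨p, hp⟩ := seg hWr.2 0 t (Nat.zero_le t)
    obtain ⟨u, ⟨i', hi', rfl⟩, u', huu, -, q, hq⟩ := last_exit (A := A) p (hAT _ ht)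
      ⟨W 0, p.start_mem_support, h0A⟩
    have q1 : ∀ v ∈ q.support, v ∉ D := by
      intro v hv
      obtain ⟨k, -, -, e⟩ := hp v (hq v hv).1
      rw [e]
      exact hWD k
    have q2 : ∀ v ∈ q.support, ∀ l ≤ i, v ≠ L l := by
      intro v hv l hl e
      rcases Nat.lt_or_eq_of_le hl with h3 | h3
      · exact (hq v hv).2 ⟨l, h3, e⟩
      · obtain ⟨k, -, -, e'⟩ := hp v (hq v hv).1
        exact hWc k (by rw [← e', e, h3])
    have q3 : ∀ v ∈ q.support, v ∈ T → v = W t := by
      intro v hv hvT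
      obtain ⟨k, -, h3, e'⟩ := hp v (hq v hv).1
      rcases Nat.lt_or_eq_of_le h3 with h4 | h4
      · rw [e'] at hvT
        exact absurd hvT (htm k h4)
      · rw [e', h4]
    refine ⟨i', hi', ?_⟩
    have ht' := ht
    rcases ht' with ⟨b, m, e⟩ | ⟨k0, e⟩ | e
    · -- the family is hit
      refine resE i' hi' b m u' (q.copy rfl e) huu ?_ ?_ ?_
      · intro v hv
        rw [SimpleGraph.Walk.support_copy] at hv
        exact q1 v hv
      · intro v hv
        rw [SimpleGraph.Walk.support_copy] at hv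
        exact q2 v hv
      · intro v hv k e'
        rw [SimpleGraph.Walk.support_copy] at hv
        have h3 := q3 v hv (Or.inr (Or.inl ⟨k, e'⟩))
        exact hMQ k b m (by rw [e', h3, e])
    · -- the ray `M` is hit
      have hk0 : 1 ≤ k0 := by
        rcases Nat.eq_zero_or_pos k0 with h3 | h3
        · rw [h3, hM0] at e
          exact absurd e.symm (hWc t)
        · exact h3
      obtain ⟨M', h3, h4, h5⟩ := extend hω hM
        ((SimpleGraph.Walk.cons huu q).copy rfl e.symm)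
      have h6 : ∀ k, M' k = L i' ∨ M' k ∈ q.support ∨ ∃ n, k0 ≤ n ∧ M' k = M n := by
        intro k
        rcases h5 k with h7 | h7
        · rw [SimpleGraph.Walk.support_copy, SimpleGraph.Walk.support_cons, List.mem_cons] at h7
          rcases h7 with h7 | h7
          · exact Or.inl h7
          · exact Or.inr (Or.inl h7)
        · exact Or.inr (Or.inr h7)
      refine resM i' hi' M' h3 h4 (fun k => ?_) (fun k b m e' => ?_) (fun k l hl e' => ?_)
        (fun k e' => ?_)
      · rcases h6 k with h7 | h7 | ⟨n, -, h7⟩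
        · rw [h7]
          exact hLD _
        · exact q1 _ h7
        · rw [h7]
          exact hMD _
      · rcases h6 k with h7 | h7 | ⟨n, -, h7⟩
        · exact hLQ _ _ _ (h7.symm.trans e')
        · have h8 := q3 _ h7 (Or.inl ⟨b, m, e'⟩)
          exact hMQ k0 b m (by rw [e, ← h8, e'])
        · exact hMQ _ _ _ (h7.symm.trans e')
      · rcases h6 k with h7 | h7 | ⟨n, h8, h7⟩
        · exact (hLr.1 (h7.symm.trans e')).symm
        · exact absurd e' (q2 _ h7 l hl)
        · rcases Nat.lt_or_eq_of_le hl with h9 | h9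
          · exact absurd (h7.symm.trans e') (hML n l h9)
          · have h10 : M n = M 0 := by rw [← h7, e', h9, hM0]
            have := hMr.1 h10
            omega
      · rcases h6 k with h7 | h7 | ⟨n, -, h7⟩
        · rw [h7] at e'
          exact (hE _ e').2.1 i' hi' rfl
        · have h8 := q3 _ h7 (Or.inr (Or.inr e'))
          exact (hE _ e').2.2 k0 (by rw [e, h8])
        · rw [h7] at e'
          exact (hE _ e').2.2 n rfl
    · -- the path `E` is hit
      refine resE i' hi' a j u' (q.append (E.dropUntil (W t) e)) huu ?_ ?_ ?_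
      · intro v hv
        rw [SimpleGraph.Walk.mem_support_append_iff] at hv
        rcases hv with hv | hv
        · exact q1 v hv
        · exact (hE v (SimpleGraph.Walk.support_dropUntil_subset_support _ _ hv)).1
      · intro v hv l hl
        rw [SimpleGraph.Walk.mem_support_append_iff] at hv
        rcases hv with hv | hv
        · exact q2 v hv l hl
        · have h3 := hE v (SimpleGraph.Walk.support_dropUntil_subset_support _ _ hv)
          rcases Nat.lt_or_eq_of_le hl with h4 | h4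
          · exact h3.2.1 l h4
          · rw [h4, ← hM0]
            exact (h3.2.2 0).symm
      · intro v hv k e'
        rw [SimpleGraph.Walk.mem_support_append_iff] at hv
        rcases hv with hv | hv
        · have h3 := q3 v hv (Or.inr (Or.inl ⟨k, e'⟩))
          exact (hE _ e).2.2 k (by rw [e', h3])
        · exact (hE v (SimpleGraph.Walk.support_dropUntil_subset_support _ _ hv)).2.2 k e'
  · push Not at hex
    have hAf : A.Finite := by
      have h3 : A ⊆ L '' (Set.Iio i) := by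
        rintro v ⟨l, hl, rfl⟩
        exact ⟨l, hl, rfl⟩
      exact ((Set.finite_Iio i).image L).subset h3
    have hfin : (W ⁻¹' A).Finite := hAf.preimage hWr.1.injOn
    obtain ⟨N, hN⟩ := hfin.bddAbove
    obtain ⟨p, hp⟩ := seg hWr.2 0 (N + 1) (Nat.zero_le _)
    have hNA : ∀ k, N + 1 ≤ k → W k ∉ A := fun k hk h3 => by
      have := hN h3
      omega
    obtain ⟨u, ⟨i', hi', rfl⟩, u', huu, -, q, hq⟩ := last_exit (A := A) p (hNA _ le_rfl)
      ⟨W 0, p.start_mem_support, h0A⟩
    obtain ⟨M', h3, h4, h5⟩ := extend hω hW (SimpleGraph.Walk.cons huu q)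
    have h6 : ∀ k, M' k = L i' ∨ ∃ n, M' k = W n ∧ W n ∉ A := by
      intro k
      rcases h5 k with h7 | ⟨n, h7, h8⟩
      · rw [SimpleGraph.Walk.support_cons, List.mem_cons] at h7
        rcases h7 with h7 | h7
        · exact Or.inl h7
        · obtain ⟨n, -, -, h8⟩ := hp _ (hq _ h7).1
          exact Or.inr ⟨n, h8, h8 ▸ (hq _ h7).2⟩
      · exact Or.inr ⟨n, h8, hNA n h7⟩
    refine ⟨i', hi', resM i' hi' M' h3 h4 (fun k => ?_) (fun k b m e' => ?_)
      (fun k l hl e' => ?_) (fun k e' => ?_)⟩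
    · rcases h6 k with h7 | ⟨n, h7, -⟩
      · rw [h7]
        exact hLD _
      · rw [h7]
        exact hWD _
    · rcases h6 k with h7 | ⟨n, h7, -⟩
      · exact hLQ _ _ _ (h7.symm.trans e')
      · exact hex n (Or.inl ⟨b, m, h7.symm.trans e'⟩)
    · rcases h6 k with h7 | ⟨n, h7, h8⟩
      · exact (hLr.1 (h7.symm.trans e')).symm
      · rcases Nat.lt_or_eq_of_le hl with h9 | h9
        · exact absurd ⟨l, h9, h7.symm.trans e'⟩ h8
        · exact absurd (h7.symm.trans (e'.trans (by rw [h9]))) (hWc n)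
    · rcases h6 k with h7 | ⟨n, h7, -⟩
      · rw [h7] at e'
        exact (hE _ e').2.1 i' hi' rfl
      · rw [h7] at e'
        exact hex n (Or.inr (Or.inr e'))

theorem exit_path {G : SimpleGraph V} {ω : Set (ℕ → V)} (hω : IsEnd G ω) {ι : Type*} [Nonempty ι]
    (D : Set V) (hD : D.Finite) (Q : ι → ℕ → V) (hQ : ∀ a, Q a ∈ ω) (hQD : ∀ a i, Q a i ∉ D)
    (L : ℕ → V) (hL : L ∈ ω) (hLD : ∀ i, L i ∉ D) (hLQ : ∀ i a j, L i ≠ Q a j)
    (h2 : ∀ c, c ≠ L 0 → ∃ W ∈ ω, W 0 = L 0 ∧ (∀ i, W i ∉ D) ∧ ∀ i, W i ≠ c) :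
    ∃ M ∈ ω, M 0 = L 0 ∧ (∀ i, M i ∉ D) ∧ (∀ i a j, M i ≠ Q a j) ∧
      ∃ (a : ι) (j : ℕ) (p : G.Walk (L 0) (Q a j)), p.IsPath ∧ (∀ v ∈ p.support, v ∉ D) ∧
        (∀ v ∈ p.support, v ≠ L 0 → ∀ i, M i ≠ v) ∧
        (∀ v ∈ p.support, v ≠ Q a j → ∀ b k, v ≠ Q b k) := by
  classical
  have hex := good_ex hω D hD Q hQ L hL hLD hLQ
  have h0 : Good G ω D Q L 0 := by
    rcases Nat.eq_zero_or_pos (Nat.find hex) with h1 | h1
    · have h3 := Nat.find_spec hex
      rwa [h1] at h3
    · obtain ⟨i', hi', h3⟩ := good_down hω D Q L hL hLD hLQ h2 h1 (Nat.find_spec hex)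
      exact absurd h3 (Nat.find_min hex hi')
  obtain ⟨M, hM, hM0, hMD, hMQ, -, a, j, y, E, hy, hE⟩ := h0
  obtain ⟨z, ⟨b, k, rfl⟩, p, hp, hp1, hp2⟩ := first_hit (F := {v | ∃ b k, v = Q b k})
    (SimpleGraph.Walk.cons hy E) ⟨a, j, rfl⟩
  have hp3 : ∀ v ∈ p.support, v = L 0 ∨ v ∈ E.support := by
    intro v hv
    have h1 := hp1 v hv
    rw [SimpleGraph.Walk.support_cons, List.mem_cons] at h1
    exact h1
  refine ⟨M, hM, hM0, hMD, hMQ, b, k, p, hp, fun v hv => ?_, fun v hv hne i => ?_,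
    fun v hv hne b' k' e => ?_⟩
  · rcases hp3 v hv with h1 | h1
    · rw [h1]
      exact hLD 0
    · exact (hE v h1).1
  · rcases hp3 v hv with h1 | h1
    · exact absurd h1 hne
    · exact (hE v h1).2.2 i
  · exact hne (hp2 v hv ⟨b', k', e⟩)

end DV
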