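import Pool.Agent.DV.Step

/-!
# DV-Lim: the limit family (one statement)

`S : ℕ → State V ι` is a sequence of states as produced by `stage`.  The limit family `Q∞` is defined by
`Q∞ a i = (S n).Q a i` for all large `n`.  The fixed parts of the touched rays grow, so the values are
eventually constant; the walks of the growth condition show that the limit rays stay in the end; only
the countably many touched rays change.
-/

namespace DV

variable {V : Type*} {ι : Type*}

private theorem ext_refl (s : State V ι) : Ext s s :=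
  ⟨fun _ => le_rfl, fun _ _ _ => rfl, subset_rfl, fun _ _ => rfl, subset_rfl⟩

private theorem ext_trans {s s' s'' : State V ι} (h : Ext s s') (h' : Ext s' s'') : Ext s s'' where
  le a := (h.le a).trans (h'.le a)
  agree a i hi := (h'.agree a i (hi.trans (h.le a))).trans (h.agree a i hi)
  sub := h.sub.trans h'.sub
  rk a ha := (h'.rk a (h.sub ha)).trans (h.rk a ha)
  sX := h.sX.trans h'.sX

private theorem ext_le {S : ℕ → State V ι} (hE : ∀ n, Ext (S n) (S (n + 1))) {n m : ℕ}
    (h : n ≤ m) : Ext (S n) (S m) := by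
  induction m, h using Nat.le_induction with
  | base => exact ext_refl _
  | succ m _ ih => exact ext_trans ih (hE m)

theorem limit {G : SimpleGraph V} {ω : Set (ℕ → V)} (hω : IsEnd G ω) (K : ι → ℕ → V)
    (hK : ∀ a, K a ∈ ω) (r₀ : ℕ → V) (hr₀ : r₀ ∈ ω) (S : ℕ → State V ι)
    (hS : ∀ n, Good ω K n (S n)) (hE : ∀ n, Ext (S n) (S (n + 1)))
    (hG : ∀ n, ∀ a ∈ (S n).C, (S n).φ a ≤ n → (S n).l a < (S (n + 1)).l a ∧
      ∃ i m, (S n).l a ≤ i ∧ n ≤ i ∧ i ≤ (S (n + 1)).l a ∧ n ≤ m ∧
        ∃ p : G.Walk ((S (n + 1)).Q a i) (r₀ m), (∀ v ∈ p.support, v ∉ (S n).X) ∧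
          ∀ v ∈ p.support, v ∈ (S (n + 1)).X) :
    ∃ Q : ι → ℕ → V, (∀ a, Q a ∈ ω) ∧ (∀ a b, a ≠ b → ∀ i j, Q a i ≠ Q b j) ∧
      (∀ a, Q a 0 = K a 0) ∧ (∀ n a i, i ≤ (S n).l a → Q a i = (S n).Q a i) ∧
      (∀ n, {a | Q a ≠ (S n).Q a}.Countable) ∧ {a | Q a ≠ K a}.Countable := by
  classical
  -- touched rays: from some stage on the growth condition applies
  have htouch : ∀ a, (∃ k, a ∈ (S k).C) → ∃ m0, ∀ n, m0 ≤ n → a ∈ (S n).C ∧ (S n).φ a ≤ n := by
    rintro a ⟨k, hk⟩
    refine ⟨max k ((S k).φ a), fun n hn => ?_⟩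
    have hkn := ext_le hE ((le_max_left _ _).trans hn)
    refine ⟨hkn.sub hk, ?_⟩
    rw [hkn.rk a hk]
    exact (le_max_right _ _).trans hn
  have hgrow : ∀ a, (∃ k, a ∈ (S k).C) → ∀ B, ∃ n, B ≤ (S n).l a := by
    intro a ha B
    obtain ⟨m0, hm0⟩ := htouch a ha
    refine ⟨m0 + B, ?_⟩
    induction B with
    | zero => exact Nat.zero_le _
    | succ B ih =>
      obtain ⟨h1, h2⟩ := hm0 (m0 + B) (Nat.le_add_right _ _)
      have h3 := (hG (m0 + B) a h1 h2).1
      have h4 : m0 + (B + 1) = m0 + B + 1 := rfl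
      rw [h4]
      omega
  -- the values are eventually constant
  have hconst : ∀ a i, ∃ n0, ∀ n, n0 ≤ n → (S n0).Q a i = (S n).Q a i := by
    intro a i
    by_cases ha : ∃ k, a ∈ (S k).C
    · obtain ⟨n0, hn0⟩ := hgrow a ha i
      exact ⟨n0, fun n hn => ((ext_le hE hn).agree a i hn0).symm⟩
    · push Not at ha
      exact ⟨0, fun n _ => by rw [(hS 0).off a (ha 0), (hS n).off a (ha n)]⟩
  choose n0 hn0 using hconst
  let Q : ι → ℕ → V := fun a i => (S (n0 a i)).Q a i
  have hQ : ∀ a i n, n0 a i ≤ n → Q a i = (S n).Q a i := fun a i n hn => hn0 a i n hn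
  have hQl : ∀ n a i, i ≤ (S n).l a → Q a i = (S n).Q a i := by
    intro n a i hi
    rw [hQ a i (max n (n0 a i)) (le_max_right _ _)]
    exact (ext_le hE (le_max_left n (n0 a i))).agree a i hi
  have hQK : ∀ a, (¬ ∃ k, a ∈ (S k).C) → Q a = K a := by
    intro a ha
    push Not at ha
    funext i
    rw [hQ a i (n0 a i) le_rfl, (hS _).off a (ha _)]
  have hray : ∀ a, IsRay G (Q a) := by
    intro a
    constructor
    · intro i j hij
      have h1 := hQ a i (max (n0 a i) (n0 a j)) (le_max_left _ _)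
      have h2 := hQ a j (max (n0 a i) (n0 a j)) (le_max_right _ _)
      rw [h1, h2] at hij
      exact (end_isRay hω ((hS _).mem a)).1 hij
    · intro i
      rw [hQ a i (max (n0 a i) (n0 a (i + 1))) (le_max_left _ _),
        hQ a (i + 1) (max (n0 a i) (n0 a (i + 1))) (le_max_right _ _)]
      exact (end_isRay hω ((hS _).mem a)).2 i
  have hcount : (⋃ n, (S n).C).Countable := Set.countable_iUnion fun n => (hS n).cnt
  refine ⟨Q, fun a => ?_, fun a b hab i j => ?_, fun a => ?_, hQl, fun n => ?_, ?_⟩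
  · -- the limit rays are in the end
    by_cases ha : ∃ k, a ∈ (S k).C
    · refine mem_of_equiv hω hr₀ (hray a) fun T hT N => ?_
      -- a bound for the stages at which the vertices of `T` appear
      let f : V → ℕ := fun v => if h : ∃ n, v ∈ (S n).X then h.choose else 0
      obtain ⟨b, hb⟩ := (hT.image f).bddAbove
      have hT' : ∀ v ∈ T, ∀ n, v ∈ (S n).X → v ∈ (S b).X := by
        intro v hv n hn
        have h : ∃ n, v ∈ (S n).X := ⟨n, hn⟩
        have h1 : f v = h.choose := dif_pos h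
        have h2 : f v ≤ b := hb ⟨v, hv, rfl⟩
        rw [h1] at h2
        exact (ext_le hE h2).sX h.choose_spec
      obtain ⟨m0, hm0⟩ := htouch a ha
      obtain ⟨n, hn⟩ : ∃ n, n = max N (max b m0) := ⟨_, rfl⟩
      have hNn : N ≤ n := hn ▸ le_max_left _ _
      have hbn : b ≤ n := hn ▸ (le_max_left _ _).trans (le_max_right _ _)
      have hmn : m0 ≤ n := hn ▸ (le_max_right _ _).trans (le_max_right _ _)
      obtain ⟨h1, h2⟩ := hm0 n hmn
      obtain ⟨-, i, m, -, hni, hil, hnm, p, hp1, hp2⟩ := hG n a h1 h2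
      refine ⟨i, m, hNn.trans hni, hNn.trans hnm, ?_⟩
      rw [hQl (n + 1) a i hil]
      exact ⟨p, fun v hv hvT => hp1 v hv ((ext_le hE hbn).sX (hT' v hvT (n + 1) (hp2 v hv)))⟩
    · rw [hQK a ha]
      exact hK a
  · rw [hQ a i (max (n0 a i) (n0 b j)) (le_max_left _ _),
      hQ b j (max (n0 a i) (n0 b j)) (le_max_right _ _)]
    exact (hS _).dis a b hab i j
  · rw [hQ a 0 (n0 a 0) le_rfl]
    exact (hS _).start a
  · refine hcount.mono fun a ha => ?_
    by_contra h
    rw [Set.mem_iUnion] at h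
    refine ha ?_
    rw [hQK a h, (hS n).off a fun h' => h ⟨n, h'⟩]
  · refine hcount.mono fun a ha => ?_
    by_contra h
    rw [Set.mem_iUnion] at h
    exact ha (hQK a h)

end DV
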