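import Pool.Agent.DV.Lim

/-!
# DV-Main: assembly for countable sets of vertices (one statement; helper49)
-/

namespace DV

variable {V : Type*}

private theorem glue_mem {G : SimpleGraph V} {ω : Set (ℕ → V)} (hω : IsEnd G ω) {q r : ℕ → V}
    (hq : IsRay G q) (hr : r ∈ ω) (l : ℕ) (h0 : r 0 = q l) (hd : ∀ i j, i < l → q i ≠ r j) :
    (fun j => if j < l then q j else r (j - l)) ∈ ω := by
  have hrr : IsRay G r := end_isRay hω hr
  refine mem_of_tail hω hr ⟨?_, ?_⟩ l 0 (fun i => ?_)
  · intro i j hij
    simp only at hij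
    split_ifs at hij with h1 h2 h2
    · exact hq.1 hij
    · exact absurd hij (hd _ _ h1)
    · exact absurd hij.symm (hd _ _ h2)
    · have := hrr.1 hij
      omega
  · intro n
    by_cases h1 : n + 1 < l
    · simp only [h1, if_true, show n < l by omega]
      exact hq.2 n
    · by_cases h2 : n < l
      · simp only [h1, h2, if_true, if_false]
        have h3 : n + 1 = l := by omega
        have h4 : n + 1 - l = 0 := by omega
        rw [h4, h0, ← h3]
        exact hq.2 n
      · simp only [h1, h2, if_false]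
        have h3 : n + 1 - l = (n - l) + 1 := by omega
        rw [h3]
        exact hrr.2 _
  · simp

theorem main {G : SimpleGraph V} {ω : Set (ℕ → V)} (hω : IsEnd G ω) (K : Set (ℕ → V))
    (hK : K ⊆ ω) (hne : K.Nonempty) (hdis : Disjoint' K) (U : Set V) (hU : U.Countable) :
    ∃ K' : Set (ℕ → V), K' ⊆ ω ∧ Disjoint' K' ∧ starts K' = starts K ∧ (K' \ K).Countable ∧
      ∀ q ∈ ω, (∃ i, q i ∈ U) → ∃ r ∈ K', Meets q r := by
  classical
  obtain ⟨k₀, hk₀⟩ := hne
  rcases U.eq_empty_or_nonempty with hUe | hUe
  · subst hUe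
    refine ⟨K, hK, hdis, rfl, by simp, ?_⟩
    rintro q _ ⟨i, hi⟩
    exact absurd hi (by simp)
  obtain ⟨u, hu⟩ := hU.exists_eq_range hUe
  haveI : Nonempty K := ⟨⟨k₀, hk₀⟩⟩
  let KK : K → ℕ → V := Subtype.val
  have hKK : ∀ a : K, KK a ∈ ω := fun a => hK a.2
  have hs₀ : Good ω KK 0 (⟨KK, fun _ => 0, ∅, fun _ => 0, ∅⟩ : State V K) := by
    refine ⟨hKK, ?_, fun a => rfl, ?_, fun a _ => rfl, Set.countable_empty, ?_, ?_, Set.finite_empty⟩
    · intro a b hab i j h
      exact hdis a.1 a.2 b.1 b.2 (fun h' => hab (Subtype.ext h')) ⟨i, j, h⟩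
    · simp
    · intro a ha
      exact absurd ha (by simp)
    · intro a ha
      exact absurd ha (by simp)
  have hstage := fun (n : ℕ) (s : {s : State V K // Good ω KK n s}) =>
    stage hω KK k₀ (hK hk₀) n s.1 s.2 (u n)
  choose nx hnx using hstage
  let S : (n : ℕ) → {s : State V K // Good ω KK n s} := fun n =>
    Nat.rec (motive := fun n => {s : State V K // Good ω KK n s}) ⟨_, hs₀⟩
      (fun n s => ⟨nx n s, (hnx n s).1⟩) n
  have hSs : ∀ n, (S (n + 1)).1 = nx n (S n) := fun n => rfl
  obtain ⟨Q, hQω, hQd, hQ0, hQa, hQc, hQK⟩ := limit hω KK hKK k₀ (hK hk₀) (fun n => (S n).1)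
    (fun n => (S n).2) (fun n => (hnx n (S n)).2.1) (fun n => (hnx n (S n)).2.2.2)
  refine ⟨Set.range Q, ?_, ?_, ?_, ?_, ?_⟩
  · rintro _ ⟨a, rfl⟩
    exact hQω a
  · rintro _ ⟨a, rfl⟩ _ ⟨b, rfl⟩ hab ⟨i, j, h⟩
    exact hQd a b (fun h' => hab (by rw [h'])) i j h
  · ext v
    constructor
    · rintro ⟨_, ⟨a, rfl⟩, rfl⟩
      exact ⟨a.1, a.2, (hQ0 a).symm⟩
    · rintro ⟨q, hq, rfl⟩
      exact ⟨Q ⟨q, hq⟩, ⟨_, rfl⟩, hQ0 ⟨q, hq⟩⟩
  · refine (hQK.image Q).mono ?_
    rintro _ ⟨⟨a, rfl⟩, ha⟩
    refine ⟨a, fun h => ha ?_, rfl⟩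
    rw [h]
    exact a.2
  · rintro q hq ⟨i, hi⟩
    by_contra hcon
    push Not at hcon
    have hno : ∀ a j k, q j ≠ Q a k := fun a j k h => hcon (Q a) ⟨a, rfl⟩ ⟨j, k, h⟩
    rw [hu] at hi
    obtain ⟨n, hn⟩ := hi
    have hDv : ∀ v ∈ (S n).1.D, ∃ a i', i' < (S n).1.l a ∧ v = Q a i' := by
      rintro v ⟨a, i', hi', rfl⟩
      exact ⟨a, i', hi', (hQa n a i' hi'.le).symm⟩
    have hDfin : (S n).1.D.Finite := by
      have h1 : (S n).1.D ⊆ ⋃ a ∈ {a | (S n).1.l a ≠ 0}, (fun i => (S n).1.Q a i) '' Set.Iio ((S n).1.l a) := by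
        rintro v ⟨a, i', hi', rfl⟩
        simp only [Set.mem_iUnion]
        exact ⟨a, by simp only [Set.mem_setOf_eq]; omega, ⟨i', hi', rfl⟩⟩
      refine Set.Finite.subset ?_ h1
      exact Set.Finite.biUnion (S n).2.fin (fun a _ => (Set.finite_Iio _).image _)
    have hRω : (fun j => q (i + j)) ∈ ω := tail_mem hω hq i
    obtain ⟨a, R', hR'ω, hR'0, hR'D, hR'Q, i', hi'⟩ := one_step hω (S n).1.D hDfin
      (fun a j => Q a ((S n).1.l a + j)) (fun a => tail_mem hω (hQω a) _)
      (fun a j hj => by
        obtain ⟨b, k, hk, hbk⟩ := hDv _ hj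
        by_cases hab : a = b
        · subst hab
          have := (end_isRay hω (hQω a)).1 hbk
          omega
        · exact hQd a b hab _ _ hbk)
      (fun a b hab j k => hQd a b hab _ _) (fun j => q (i + j)) hRω
      (fun j hj => by
        obtain ⟨b, k, hk, hbk⟩ := hDv _ hj
        exact hno b _ _ hbk)
      (fun j a k => hno a _ _)
    have hR'q : ∀ i j, i < (S n).1.l a → Q a i ≠ R' j := by
      intro i j hi h
      refine hR'D j ?_
      rw [← h]
      exact ⟨a, i, hi, hQa n a i hi.le⟩
    have hval : Valid ω (S n).1 (fun b => if b = a then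
        (fun j => if j < (S n).1.l a then Q a j else R' (j - (S n).1.l a)) else Q b) := by
      refine ⟨?_, ?_, ?_, ?_⟩
      · intro b
        by_cases hb : b = a
        · simp only [hb, if_true]
          exact glue_mem hω (end_isRay hω (hQω a)) hR'ω _ (by simpa using hR'0) hR'q
        · simp only [hb, if_false]
          exact hQω b
      · have key : ∀ b, b ≠ a → ∀ j k, (if j < (S n).1.l a then Q a j else R' (j - (S n).1.l a)) ≠
            Q b k := by
          intro b hb j k
          split_ifs with h1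
          · exact hQd a b (Ne.symm hb) j k
          · by_cases h2 : k < (S n).1.l b
            · intro h
              refine hR'D (j - (S n).1.l a) ?_
              rw [h]
              exact ⟨b, k, h2, hQa n b k h2.le⟩
            · have := hR'Q b hb (j - (S n).1.l a) (k - (S n).1.l b)
              rwa [show (S n).1.l b + (k - (S n).1.l b) = k by omega] at this
        intro b c hbc j k
        by_cases hb : b = a
        · have hc : c ≠ a := fun h => hbc (hb.trans h.symm)
          simp only [hb, hc, if_true, if_false]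
          exact key c hc j k
        · by_cases hc : c = a
          · simp only [hb, hc, if_true, if_false]
            exact (key b hb k j).symm
          · simp only [hb, hc, if_false]
            exact hQd b c hbc j k
      · intro b j hj
        by_cases hb : b = a
        · subst hb
          simp only [if_true]
          split_ifs with h1
          · exact hQa n b j hj
          · have : j = (S n).1.l b := by omega
            subst this
            simp only [Nat.sub_self, hR'0, add_zero]
            exact hQa n b _ le_rfl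
        · simp only [hb, if_false]
          exact hQa n b j hj
      · refine ((hQc n).union (Set.countable_singleton a)).mono ?_
        intro b hb
        by_cases hba : b = a
        · exact Or.inr hba
        · left
          change (if b = a then (fun j => if j < (S n).1.l a then Q a j else R' (j - (S n).1.l a))
            else Q b) ≠ (S n).1.Q b at hb
          rw [if_neg hba] at hb
          exact hb
    obtain ⟨b, k, hk, hM⟩ := (hnx n (S n)).2.2.1 ⟨_, hval, a, (S n).1.l a + i', by
      simp only [if_true, Nat.not_lt.2 (Nat.le_add_right _ _), if_false, Nat.add_sub_cancel_left]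
      simp only [add_zero] at hi'
      rwa [hn]⟩
    obtain ⟨j, hj⟩ := hM _ hRω (by simp [hn]) (fun j hj => by
        obtain ⟨b, k, hk, hbk⟩ := hDv _ hj
        exact hno b _ _ hbk)
    refine hno b (i + j) k ?_
    rw [hQa (n + 1) b k hk]
    exact hj

end DV
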