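import Pool.Agent.DV.Defs

/-!
# DV-Ray: basic facts on rays and ends

`tail_mem`: tails stay in the end.  `mem_of_tail`: a ray with the same tail is in the end.
`extract`: a walk from `x` to a vertex `r j` of a ray followed by the ray contains a ray from `x`.
`joined_off`: two rays of the end are joined off every finite set, arbitrarily far out.
`mem_of_equiv`: a ray which is joined off every finite set and arbitrarily far out with a ray of the
end, is in the end.
-/

namespace DV

variable {V : Type*}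

private lemma jrefl {G : SimpleGraph V} {S : Set V} {x : V} (hx : x ∉ S) : Joined G S x x :=
  ⟨SimpleGraph.Walk.nil, by
    intro v hv
    rw [SimpleGraph.Walk.support_nil, List.mem_singleton] at hv
    rw [hv]
    exact hx⟩

private lemma jsymm {G : SimpleGraph V} {S : Set V} {x y : V} (h : Joined G S x y) :
    Joined G S y x := by
  obtain ⟨p, hp⟩ := h
  refine ⟨p.reverse, ?_⟩
  intro v hv
  rw [SimpleGraph.Walk.support_reverse, List.mem_reverse] at hv
  exact hp v hv

private lemma jtrans {G : SimpleGraph V} {S : Set V} {x y z : V} (h : Joined G S x y)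
    (h' : Joined G S y z) : Joined G S x z := by
  obtain ⟨p, hp⟩ := h
  obtain ⟨q, hq⟩ := h'
  refine ⟨p.append q, ?_⟩
  intro v hv
  rw [SimpleGraph.Walk.mem_support_append_iff] at hv
  rcases hv with hv | hv
  · exact hp v hv
  · exact hq v hv

private lemma jadj {G : SimpleGraph V} {S : Set V} {x y : V} (h : G.Adj x y) (hx : x ∉ S)
    (hy : y ∉ S) : Joined G S x y := by
  refine ⟨h.toWalk, ?_⟩
  intro v hv
  have hv' : v = x ∨ v = y := by simpa using hv
  rcases hv' with rfl | rfl
  · exact hx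
  · exact hy

private lemma avoid {r : ℕ → V} (hr : Function.Injective r) {S : Set V} (hS : S.Finite) :
    ∃ N, ∀ n, N ≤ n → r n ∉ S := by
  have h1 : (r ⁻¹' S).Finite := hS.preimage hr.injOn
  obtain ⟨B, hB⟩ := h1.bddAbove
  refine ⟨B + 1, fun n hn hnS => ?_⟩
  have := hB (show n ∈ r ⁻¹' S from hnS)
  omega

private lemma jray_aux {G : SimpleGraph V} {r : ℕ → V} (hr : IsRay G r) {S : Set V} {N : ℕ}
    (h : ∀ n, N ≤ n → r n ∉ S) (m : ℕ) (hm : N ≤ m) (k : ℕ) : Joined G S (r m) (r (m + k)) := by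
  induction k with
  | zero => exact jrefl (h m hm)
  | succ k ih =>
    exact jtrans ih (jadj (hr.2 (m + k)) (h _ (by omega)) (h (m + k + 1) (by omega)))

private lemma jray {G : SimpleGraph V} {r : ℕ → V} (hr : IsRay G r) {S : Set V} {N : ℕ}
    (h : ∀ n, N ≤ n → r n ∉ S) (m n : ℕ) (hm : N ≤ m) (hn : N ≤ n) : Joined G S (r m) (r n) := by
  rcases le_total m n with h1 | h1
  · obtain ⟨k, rfl⟩ := Nat.exists_eq_add_of_le h1
    exact jray_aux hr h m hm k
  · obtain ⟨k, rfl⟩ := Nat.exists_eq_add_of_le h1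
    exact jsymm (jray_aux hr h n hn k)

theorem tail_isRay {G : SimpleGraph V} {r : ℕ → V} (hr : IsRay G r) (k : ℕ) :
    IsRay G (fun i => r (k + i)) :=
  ⟨fun _ _ h => Nat.add_left_cancel (hr.1 h), fun n => hr.2 (k + n)⟩

theorem end_isRay {G : SimpleGraph V} {ω : Set (ℕ → V)} (hω : IsEnd G ω) {r : ℕ → V}
    (hr : r ∈ ω) : IsRay G r := by
  obtain ⟨r0, _, rfl⟩ := hω
  exact hr.1

/-- two rays of the end are joined off a finite set, and all sufficiently late vertices are -/
theorem joined_off {G : SimpleGraph V} {ω : Set (ℕ → V)} (hω : IsEnd G ω) {r q : ℕ → V}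
    (hr : r ∈ ω) (hq : q ∈ ω) (S : Set V) (hS : S.Finite) :
    ∃ N, ∀ m n, N ≤ m → N ≤ n → Joined G S (r m) (q n) := by
  obtain ⟨r0, _, rfl⟩ := hω
  obtain ⟨N1, h1⟩ := hr.2 S hS
  obtain ⟨N2, h2⟩ := hq.2 S hS
  refine ⟨max N1 N2, fun m n hm hn => ?_⟩
  exact jtrans (jsymm (h1 (max N1 N2) m (le_max_left _ _) ((le_max_left _ _).trans hm)))
    (h2 (max N1 N2) n (le_max_right _ _) ((le_max_right _ _).trans hn))

theorem mem_of_tail {G : SimpleGraph V} {ω : Set (ℕ → V)} (hω : IsEnd G ω) {r q : ℕ → V}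
    (hr : r ∈ ω) (hq : IsRay G q) (a b : ℕ) (h : ∀ i, q (a + i) = r (b + i)) : q ∈ ω := by
  obtain ⟨r0, _, rfl⟩ := hω
  refine ⟨hq, fun S hS => ?_⟩
  obtain ⟨N, hN⟩ := hr.2 S hS
  refine ⟨N + a, fun m n hm hn => ?_⟩
  have h1 : q n = r (b + (n - a)) := by
    rw [← h (n - a)]
    congr 1
    omega
  rw [h1]
  exact hN m _ (by omega) (by omega)

theorem tail_mem {G : SimpleGraph V} {ω : Set (ℕ → V)} (hω : IsEnd G ω) {r : ℕ → V}
    (hr : r ∈ ω) (k : ℕ) : (fun i => r (k + i)) ∈ ω := by
  refine mem_of_tail hω hr (tail_isRay (end_isRay hω hr) k) 0 k fun i => ?_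
  rw [Nat.zero_add]

/-- it suffices to join arbitrarily late vertices off every finite set -/
theorem mem_of_equiv {G : SimpleGraph V} {ω : Set (ℕ → V)} (hω : IsEnd G ω) {r q : ℕ → V}
    (hr : r ∈ ω) (hq : IsRay G q)
    (h : ∀ S : Set V, S.Finite → ∀ N : ℕ, ∃ m n, N ≤ m ∧ N ≤ n ∧ Joined G S (q m) (r n)) :
    q ∈ ω := by
  obtain ⟨r0, _, rfl⟩ := hω
  refine ⟨hq, fun S hS => ?_⟩
  obtain ⟨N1, h1⟩ := hr.2 S hS
  obtain ⟨N2, h2⟩ := avoid hq.1 hS
  obtain ⟨m, n, hm, hn, hmn⟩ := h S hS (max N1 N2)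
  refine ⟨max N1 N2, fun k l hk hl => ?_⟩
  exact jtrans (h1 k n ((le_max_left _ _).trans hk) ((le_max_left _ _).trans hn))
    (jtrans (jsymm hmn) (jray hq h2 m l ((le_max_right _ _).trans hm)
      ((le_max_right _ _).trans hl)))

/-- EXTRACTION of a ray from a walk followed by a ray. -/
theorem extract {G : SimpleGraph V} {r : ℕ → V} (hr : IsRay G r) {x : V} {j : ℕ}
    (p : G.Walk x (r j)) :
    ∃ (r' : ℕ → V) (a b : ℕ), IsRay G r' ∧ r' 0 = x ∧ j ≤ b ∧ r b ∈ p.support ∧
      (∀ i, r' (a + i) = r (b + i)) ∧ (∀ i, i ≤ a → r' i ∈ p.support) := by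
  classical
  have hpath : p.bypass.IsPath := p.bypass_isPath
  have hsub : p.bypass.support ⊆ p.support := p.support_bypass_subset_support
  generalize p.bypass = p' at hpath hsub
  have hex : ∃ a, a ≤ p'.length ∧ ∃ b, j ≤ b ∧ p'.getVert a = r b :=
    ⟨p'.length, le_rfl, j, le_rfl, p'.getVert_length⟩
  set a := Nat.find hex with ha
  obtain ⟨haL, b, hb, hab⟩ : a ≤ p'.length ∧ ∃ b, j ≤ b ∧ p'.getVert a = r b := Nat.find_spec hex
  have hmin : ∀ i, i < a → ∀ c, j ≤ c → p'.getVert i ≠ r c := by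
    intro i hi c hc h
    exact Nat.find_min hex hi ⟨by omega, c, hc, h⟩
  clear_value a
  have hge : ∀ i, a ≤ i → (if i < a then p'.getVert i else r (b + (i - a))) =
      r (b + (i - a)) := fun i hi => if_neg (not_lt.2 hi)
  have hlt : ∀ i, i < a → (if i < a then p'.getVert i else r (b + (i - a))) =
      p'.getVert i := fun i hi => if_pos hi
  have hle : ∀ i, i ≤ a → (if i < a then p'.getVert i else r (b + (i - a))) =
      p'.getVert i := by
    intro i hi
    rcases hi.lt_or_eq with h | h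
    · exact hlt i h
    · subst h
      rw [hge i le_rfl, hab, Nat.sub_self, Nat.add_zero]
  refine ⟨fun i => if i < a then p'.getVert i else r (b + (i - a)), a, b, ⟨?_, ?_⟩, ?_, hb, ?_,
    ?_, ?_⟩
  · intro i i' h
    simp only [] at h
    rcases Nat.lt_or_ge i a with h1 | h1
    · rcases Nat.lt_or_ge i' a with h2 | h2
      · rw [hlt i h1, hlt i' h2] at h
        exact hpath.getVert_injOn (by simp only [Set.mem_ofPred_eq]; omega)
          (by simp only [Set.mem_ofPred_eq]; omega) h
      · rw [hlt i h1, hge i' h2] at h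
        exact absurd h (hmin i h1 _ (by omega))
    · rcases Nat.lt_or_ge i' a with h2 | h2
      · rw [hge i h1, hlt i' h2] at h
        exact absurd h.symm (hmin i' h2 _ (by omega))
      · rw [hge i h1, hge i' h2] at h
        have := hr.1 h
        omega
  · intro n
    simp only []
    rcases Nat.lt_or_ge n a with h1 | h1
    · rw [hle n h1.le, hle (n + 1) h1]
      exact p'.adj_getVert_succ (by omega)
    · rw [hge n h1, hge (n + 1) (by omega)]
      have h3 : b + (n + 1 - a) = b + (n - a) + 1 := by omega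
      rw [h3]
      exact hr.2 _
  · change (if 0 < a then p'.getVert 0 else r (b + (0 - a))) = x
    rw [hle 0 (Nat.zero_le a), SimpleGraph.Walk.getVert_zero]
  · rw [← hab]
    exact hsub (p'.getVert_mem_support a)
  · intro i
    simp only []
    rw [hge (a + i) (by omega)]
    congr 1
    omega
  · intro i hi
    simp only []
    rw [hle i hi]
    exact hsub (p'.getVert_mem_support i)

end DV
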