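import Pool.Agent.DV.Ray

/-!
# DV-Sharp: uncountable families (one statement)

For a type `κ` the graph `starRay κ` on `Option κ × ℕ` is the product of a star with a ray:
`(x, n) ~ (x, n + 1)` and `(none, n) ~ (some i, n)`.

`sharp`: for every uncountable type `κ` there are an end `ω` of `starRay (κ ⊕ κ)`, devoured by `#κ`
disjoint rays, and a pairwise disjoint family `K ⊆ ω` with `#K = #κ` such that no pairwise disjoint
family `K' ⊆ ω` with `starts K' = starts K` devours `ω`.

Plan: `ω` = class of `hub n = (none, n)`; `leg x n = (some x, n)` is a ray equivalent to `hub`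
(off a finite set `S` all `(x, n)`, `n ≥ N`, `x ∈ {none, some i}` are joined).
`D` = hub and all legs (every vertex is on one of them; `#(Option (κ ⊕ κ)) = #κ`).
`K = {leg (Sum.inl i) | i}`.  Let `K'` be disjoint with the same starting vertices
`(some (inl i), 0)`, and suppose that it devours `ω`.  For every `j : κ` some `q_j ∈ K'` meets
`leg (inr j)`; `q_j` starts at some `(some (inl i), 0)`, so it has to pass through the hub (a walk
between different legs contains a vertex with first coordinate `none`: look at the first index where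
the first coordinate changes).  Only countably many members of `K'` meet the hub (they are disjoint and
the hub is countable), and each member has countably many vertices; so countably many `(some (inr j), n)`
are covered, but `κ` is uncountable.
-/

universe u

namespace DV

/-- star times ray -/
def starRay (κ : Type*) : SimpleGraph (Option κ × ℕ) where
  Adj a b := (a.1 = b.1 ∧ (a.2 + 1 = b.2 ∨ b.2 + 1 = a.2)) ∨
    (a.2 = b.2 ∧ a.1 ≠ b.1 ∧ (a.1 = none ∨ b.1 = none))
  symm := ⟨by
    rintro a b (⟨h1, h2⟩ | ⟨h1, h2, h3⟩)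
    · exact Or.inl ⟨h1.symm, h2.symm⟩
    · exact Or.inr ⟨h1.symm, h2.symm, h3.symm⟩⟩
  loopless := ⟨by
    rintro a (⟨_, h | h⟩ | ⟨_, h, _⟩)
    · omega
    · omega
    · exact h rfl⟩

private lemma jrefl' {V : Type*} {G : SimpleGraph V} {S : Set V} {x : V} (hx : x ∉ S) :
    Joined G S x x :=
  ⟨SimpleGraph.Walk.nil, by
    intro v hv
    rw [SimpleGraph.Walk.support_nil, List.mem_singleton] at hv
    rw [hv]
    exact hx⟩

private lemma jsymm' {V : Type*} {G : SimpleGraph V} {S : Set V} {x y : V}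
    (h : Joined G S x y) : Joined G S y x := by
  obtain ⟨p, hp⟩ := h
  refine ⟨p.reverse, ?_⟩
  intro v hv
  rw [SimpleGraph.Walk.support_reverse, List.mem_reverse] at hv
  exact hp v hv

private lemma jtrans' {V : Type*} {G : SimpleGraph V} {S : Set V} {x y z : V}
    (h : Joined G S x y) (h' : Joined G S y z) : Joined G S x z := by
  obtain ⟨p, hp⟩ := h
  obtain ⟨q, hq⟩ := h'
  refine ⟨p.append q, ?_⟩
  intro v hv
  rw [SimpleGraph.Walk.mem_support_append_iff] at hv
  rcases hv with hv | hv
  · exact hp v hv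
  · exact hq v hv

private lemma jadj' {V : Type*} {G : SimpleGraph V} {S : Set V} {x y : V} (h : G.Adj x y)
    (hx : x ∉ S) (hy : y ∉ S) : Joined G S x y := by
  refine ⟨h.toWalk, ?_⟩
  intro v hv
  have hv' : v = x ∨ v = y := by simpa using hv
  rcases hv' with rfl | rfl
  · exact hx
  · exact hy

private lemma jup {κ : Type*} {S : Set (Option κ × ℕ)} {N : ℕ}
    (h : ∀ x : Option κ, ∀ n, N ≤ n → (x, n) ∉ S) (x : Option κ) (m : ℕ) (hm : N ≤ m) (k : ℕ) :
    Joined (starRay κ) S (x, m) (x, m + k) := by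
  induction k with
  | zero => exact jrefl' (h x m hm)
  | succ k ih =>
    refine jtrans' ih (jadj' (Or.inl ⟨rfl, Or.inl ?_⟩) (h x _ (by omega)) (h x _ (by omega)))
    show m + k + 1 = m + (k + 1)
    omega

private lemma jcol {κ : Type*} {S : Set (Option κ × ℕ)} {N : ℕ}
    (h : ∀ x : Option κ, ∀ n, N ≤ n → (x, n) ∉ S) (x : Option κ) (m n : ℕ) (hm : N ≤ m)
    (hn : N ≤ n) : Joined (starRay κ) S (x, m) (x, n) := by
  rcases le_total m n with h1 | h1
  · obtain ⟨k, rfl⟩ := Nat.exists_eq_add_of_le h1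
    exact jup h x m hm k
  · obtain ⟨k, rfl⟩ := Nat.exists_eq_add_of_le h1
    exact jsymm' (jup h x n hn k)

private lemma far {κ : Type*} {S : Set (Option κ × ℕ)} (hS : S.Finite) :
    ∃ N, ∀ x : Option κ, ∀ n, N ≤ n → (x, n) ∉ S := by
  obtain ⟨B, hB⟩ := (hS.image Prod.snd).bddAbove
  refine ⟨B + 1, fun x n hn hx => ?_⟩
  have h1 : n ≤ B := hB ⟨(x, n), hx, rfl⟩
  omega

private lemma col_isRay {κ : Type*} (x : Option κ) : IsRay (starRay κ) (fun n => (x, n)) :=
  ⟨fun _ _ h => (Prod.mk.inj h).2, fun _ => Or.inl ⟨rfl, Or.inl rfl⟩⟩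

private lemma col_equiv {κ : Type*} (x : Option κ) :
    Equivalent (starRay κ) (fun n => ((none : Option κ), n)) (fun n => (x, n)) := by
  intro S hS
  obtain ⟨N, hN⟩ := far hS
  refine ⟨N, fun m n hm hn => ?_⟩
  refine jtrans' (jcol hN none m n hm hn) ?_
  rcases eq_or_ne x none with rfl | hx
  · exact jrefl' (hN none n hn)
  · exact jadj' (Or.inr ⟨rfl, fun h => hx h.symm, Or.inl rfl⟩) (hN none n hn) (hN x n hn)

private lemma const_of_avoid {κ : Type*} {q : ℕ → Option κ × ℕ} (hq : IsRay (starRay κ) q)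
    (h : ∀ n, (q n).1 ≠ none) (n : ℕ) : (q n).1 = (q 0).1 := by
  induction n with
  | zero => rfl
  | succ n ih =>
    rw [← ih]
    rcases hq.2 n with ⟨h1, _⟩ | ⟨_, _, h3 | h3⟩
    · exact h1.symm
    · exact absurd h3 (h n)
    · exact absurd h3 (h (n + 1))

theorem sharp (κ : Type u) (hκ : Uncountable κ) :
    ∃ ω : Set (ℕ → Option (κ ⊕ κ) × ℕ), IsEnd (starRay (κ ⊕ κ)) ω ∧
      (∃ D : Set (ℕ → Option (κ ⊕ κ) × ℕ), D ⊆ ω ∧ Disjoint' D ∧
        Cardinal.mk D = Cardinal.mk κ ∧ Devours D ω) ∧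
      ∃ K : Set (ℕ → Option (κ ⊕ κ) × ℕ), K ⊆ ω ∧ Disjoint' K ∧
        Cardinal.mk K = Cardinal.mk κ ∧
        ∀ K' : Set (ℕ → Option (κ ⊕ κ) × ℕ), K' ⊆ ω → Disjoint' K' → starts K' = starts K →
          ¬ Devours K' ω := by
  classical
  have hinf : Infinite κ := by
    by_contra hc
    rw [not_infinite_iff_finite] at hc
    exact not_countable (α := κ) inferInstance
  have hκ0 : Cardinal.aleph0 ≤ Cardinal.mk κ := Cardinal.aleph0_le_mk κ
  refine ⟨{q | IsRay (starRay (κ ⊕ κ)) q ∧ Equivalent (starRay (κ ⊕ κ))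
    (fun n => ((none : Option (κ ⊕ κ)), n)) q}, ⟨_, col_isRay none, rfl⟩, ?_, ?_⟩
  · refine ⟨Set.range (fun x : Option (κ ⊕ κ) => fun n : ℕ => (x, n)), ?_, ?_, ?_, ?_⟩
    · rintro _ ⟨x, rfl⟩
      exact ⟨col_isRay x, col_equiv x⟩
    · rintro _ ⟨x, rfl⟩ _ ⟨y, rfl⟩ hxy ⟨i, j, hij⟩
      have h1 : x = y := (Prod.mk.inj hij).1
      exact hxy (by rw [h1])
    · have hinj : Function.Injective
          (fun x : Option (κ ⊕ κ) => fun n : ℕ => ((x, n) : Option (κ ⊕ κ) × ℕ)) := by
        intro x y hxy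
        exact (Prod.mk.inj (congrFun hxy 0)).1
      rw [Cardinal.mk_range_eq _ hinj, Cardinal.mk_option, Cardinal.mk_sum, Cardinal.lift_id,
        Cardinal.add_eq_self hκ0]
      exact Cardinal.add_one_eq hκ0
    · intro q _
      exact ⟨_, ⟨(q 0).1, rfl⟩, 0, (q 0).2, rfl⟩
  · refine ⟨Set.range (fun i : κ => fun n : ℕ => (some (Sum.inl i), n)), ?_, ?_, ?_, ?_⟩
    · rintro _ ⟨i, rfl⟩
      exact ⟨col_isRay _, col_equiv _⟩
    · rintro _ ⟨x, rfl⟩ _ ⟨y, rfl⟩ hxy ⟨i, j, hij⟩
      have h1 : x = y := by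
        have h2 := (Prod.mk.inj hij).1
        simpa using h2
      exact hxy (by rw [h1])
    · have hinj : Function.Injective
          (fun i : κ => fun n : ℕ => ((some (Sum.inl i), n) : Option (κ ⊕ κ) × ℕ)) := by
        intro x y hxy
        have h2 := (Prod.mk.inj (congrFun hxy 0)).1
        simpa using h2
      exact Cardinal.mk_range_eq _ hinj
    · intro K' hK' hdis hst hdev
      -- members of `K'` which meet the hub
      set H : Set (ℕ → Option (κ ⊕ κ) × ℕ) := {q | q ∈ K' ∧ ∃ n, (q n).1 = none} with hH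
      have hHc : H.Countable := by
        have hch : ∀ q : H, ∃ k : ℕ, ∃ n, q.1 n = (none, k) := by
          rintro ⟨q, hq, n, hn⟩
          exact ⟨(q n).2, n, Prod.ext hn rfl⟩
        choose f hf using hch
        have hinj : Function.Injective f := by
          intro q q' hqq
          obtain ⟨n, hn⟩ := hf q
          obtain ⟨n', hn'⟩ := hf q'
          by_contra hne
          refine hdis q.1 q.2.1 q'.1 q'.2.1 (fun h => hne (Subtype.ext h)) ⟨n, n', ?_⟩
          rw [hn, hn', hqq]
        exact Set.countable_coe_iff.1 hinj.countable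
      have hU : (⋃ q ∈ H, Set.range q).Countable :=
        hHc.biUnion fun q _ => Set.countable_range q
      have hmeet : ∀ j : κ, ∃ b : ℕ, ((some (Sum.inr j), b) : Option (κ ⊕ κ) × ℕ) ∈
          ⋃ q ∈ H, Set.range q := by
        intro j
        obtain ⟨q, hq, a, b, hab⟩ := hdev (fun n => (some (Sum.inr j), n))
          ⟨col_isRay _, col_equiv _⟩
        refine ⟨a, ?_⟩
        have hq0 : q 0 ∈ starts K' := ⟨q, hq, rfl⟩
        rw [hst] at hq0
        obtain ⟨_, ⟨i, rfl⟩, hi⟩ := hq0
        have hqH : q ∈ H := by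
          refine ⟨hq, ?_⟩
          by_contra hno
          push Not at hno
          have h1 := const_of_avoid (hK' hq).1 hno b
          rw [← hab, ← hi] at h1
          simp at h1
        exact Set.mem_biUnion hqH ⟨b, hab.symm⟩
      choose b hb using hmeet
      have hUc : Countable (⋃ q ∈ H, Set.range q : Set (Option (κ ⊕ κ) × ℕ)) := hU.to_subtype
      have hinj : Function.Injective
          (fun j : κ => (⟨_, hb j⟩ : (⋃ q ∈ H, Set.range q : Set (Option (κ ⊕ κ) × ℕ)))) := by
        intro x y hxy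
        have h1 := congrArg Subtype.val hxy
        have h2 := (Prod.mk.inj h1).1
        simpa using h2
      exact not_countable (α := κ) hinj.countable

end DV
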