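import Pool.Agent.DV.Cut

/-!
# DV-Step: states of the construction and one stage (one statement)

`K : ι → ℕ → V` is the given family (`ι` arbitrary), `r₀` a fixed ray of the end.  A `State` consists
of a pairwise disjoint family `Q : ι → ℕ → V` of `ω`-rays with the same starts, numbers `ℓ a` (the
vertices `Q a i`, `i ≤ ℓ a`, are fixed; `ℓ a = 0` for all but finitely many `a`), the set `C` of the
touched indices (`Q a = K a` outside), a rank `φ : ι → ℕ` injective on `C`, and a finite set `X` of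
vertices used by the joining paths.  `Good n` collects the invariants before stage `n`.

`stage`: for every `n`, every good state `s` and every vertex `u` there is a good state `s'` such that
 * `s'` extends `s` (`Ext`);
 * (task) if some valid family `Q` with a countable change covers a vertex of `Must ω (s.D) u`, then a
   vertex of `Must ω (s.D) u` is among the fixed vertices of `s'`;
 * (growth) for every touched `a ∈ s.C` with `s.φ a ≤ n`: `s.ℓ a < s'.ℓ a` and some fixed vertex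
   `s'.Q a i`, `s.ℓ a ≤ i ≤ s'.ℓ a`, `n ≤ i`, is joined to `r₀ m`, some `m ≥ n`, by a walk avoiding
   `s.X` and contained in `s'.X`.

PROOF.  If the hypothesis of the task holds take `Q` and `a₀, i₀` from it, otherwise `Q := s.Q`.
`C' = s.C ∪ {a | Q a ≠ s.Q a}` is countable; `φ' = φ` on `C`, and on `C' \ C` (countable, injection `g`
to `ℕ`) `φ' a = Nat.pair n (g a)`; by the invariant `(φ a).unpair.1 < n` on `C` it is injective on
`C'`, and `(φ' a).unpair.1 < n + 1`.  The set `B = {a ∈ s.C | s.φ a ≤ n}` is finite (injectivity).  For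
`a ∈ B`: `Q a ∈ ω` and `r₀ ∈ ω`; `joined_off` for the finite set `s.X` gives `N_a`; take the walk
`p_a` from `Q a i_a` to `r₀ m_a` with `i_a = m_a = max N_a (max n (s.ℓ a + 1))`.  `ℓ' a = i_a` for
`a ∈ B`, and additionally `ℓ' a₀ ≥ i₀` (take maxima, everything `≥ s.ℓ`).  `X' = s.X ∪` supports.
-/

namespace DV

variable {V : Type*} {ι : Type*}

structure State (V ι : Type*) where
  Q : ι → ℕ → V
  l : ι → ℕ
  C : Set ι
  φ : ι → ℕ
  X : Set V

/-- the vertices strictly before the last fixed ones -/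
def State.D (s : State V ι) : Set V := {v | ∃ a i, i < s.l a ∧ v = s.Q a i}

/-- invariants before stage `n` -/
structure Good (ω : Set (ℕ → V)) (K : ι → ℕ → V) (n : ℕ) (s : State V ι) : Prop where
  mem : ∀ a, s.Q a ∈ ω
  dis : ∀ a b, a ≠ b → ∀ i j, s.Q a i ≠ s.Q b j
  start : ∀ a, s.Q a 0 = K a 0
  fin : {a | s.l a ≠ 0}.Finite
  off : ∀ a, a ∉ s.C → s.Q a = K a
  cnt : s.C.Countable
  inj : Set.InjOn s.φ s.C
  rank : ∀ a ∈ s.C, (s.φ a).unpair.1 < n
  finX : s.X.Finite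

/-- `s'` extends `s` -/
structure Ext (s s' : State V ι) : Prop where
  le : ∀ a, s.l a ≤ s'.l a
  agree : ∀ a i, i ≤ s.l a → s'.Q a i = s.Q a i
  sub : s.C ⊆ s'.C
  rk : ∀ a ∈ s.C, s'.φ a = s.φ a
  sX : s.X ⊆ s'.X

/-- a valid family with a countable change -/
structure Valid (ω : Set (ℕ → V)) (s : State V ι) (Q : ι → ℕ → V) : Prop where
  mem : ∀ a, Q a ∈ ω
  dis : ∀ a b, a ≠ b → ∀ i j, Q a i ≠ Q b j
  agree : ∀ a i, i ≤ s.l a → Q a i = s.Q a i
  cnt : {a | Q a ≠ s.Q a}.Countable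

theorem stage {G : SimpleGraph V} {ω : Set (ℕ → V)} (hω : IsEnd G ω) (K : ι → ℕ → V)
    (r₀ : ℕ → V) (hr₀ : r₀ ∈ ω) (n : ℕ) (s : State V ι) (hs : Good ω K n s) (u : V) :
    ∃ s' : State V ι, Good ω K (n + 1) s' ∧ Ext s s' ∧
      ((∃ Q, Valid ω s Q ∧ ∃ a i, Q a i ∈ Must ω s.D u) →
        ∃ a i, i ≤ s'.l a ∧ s'.Q a i ∈ Must ω s.D u) ∧
      (∀ a ∈ s.C, s.φ a ≤ n → s.l a < s'.l a ∧ ∃ i m, s.l a ≤ i ∧ n ≤ i ∧ i ≤ s'.l a ∧ n ≤ m ∧
        ∃ p : G.Walk (s'.Q a i) (r₀ m), (∀ v ∈ p.support, v ∉ s.X) ∧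
          ∀ v ∈ p.support, v ∈ s'.X) := by
  classical
  -- the new family and the bounds of the task
  have h0 : ∃ (Q : ι → ℕ → V) (T : ι → ℕ), Valid ω s Q ∧ {a | T a ≠ 0}.Finite ∧
      ((∃ Q, Valid ω s Q ∧ ∃ a i, Q a i ∈ Must ω s.D u) →
        ∃ a i, i ≤ T a ∧ Q a i ∈ Must ω s.D u) := by
    by_cases hP : ∃ Q, Valid ω s Q ∧ ∃ a i, Q a i ∈ Must ω s.D u
    · obtain ⟨Q, hQ, a₀, i₀, h⟩ := hP
      refine ⟨Q, fun a => if a = a₀ then i₀ else 0, hQ, ?_, fun _ => ⟨a₀, i₀, by simp, h⟩⟩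
      refine (Set.finite_singleton a₀).subset fun a ha => ?_
      by_contra hne
      exact ha (if_neg hne)
    · refine ⟨s.Q, fun _ => 0, ⟨hs.mem, hs.dis, fun _ _ _ => rfl, ?_⟩, ?_, fun h => absurd h hP⟩
      · simp
      · simp
  obtain ⟨Q, T, hQ, hTfin, htask⟩ := h0
  -- the walks
  have hwalk : ∀ a, ∃ I, n ≤ I ∧ s.l a < I ∧ ∃ p : G.Walk (Q a I) (r₀ I),
      ∀ v ∈ p.support, v ∉ s.X := by
    intro a
    obtain ⟨N, hN⟩ := joined_off hω (hQ.mem a) hr₀ s.X hs.finX
    refine ⟨max N (max n (s.l a + 1)), ?_, ?_, ?_⟩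
    · exact le_trans (le_max_left _ _) (le_max_right _ _)
    · exact lt_of_lt_of_le (Nat.lt_succ_self _) (le_trans (le_max_right _ _) (le_max_right _ _))
    · exact hN _ _ (le_max_left _ _) (le_max_left _ _)
  choose I hnI hlI p hp using hwalk
  -- the touched indices
  have hC' : (s.C ∪ {a | Q a ≠ s.Q a}).Countable := hs.cnt.union hQ.cnt
  obtain ⟨g, hg⟩ := Set.countable_iff_exists_injOn.mp hC'
  have hB : {a | a ∈ s.C ∧ s.φ a ≤ n}.Finite := by
    refine Set.Finite.of_injOn (f := s.φ) (t := Set.Iic n) (fun a ha => ha.2) ?_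
      (Set.finite_Iic n)
    intro a ha b hb hab
    exact hs.inj ha.1 hb.1 hab
  let l' : ι → ℕ := fun a =>
    max (max (s.l a) (T a)) (if a ∈ {a | a ∈ s.C ∧ s.φ a ≤ n} then I a else 0)
  have hl'1 : ∀ a, s.l a ≤ l' a := fun a => le_trans (le_max_left _ _) (le_max_left _ _)
  have hl'2 : ∀ a, T a ≤ l' a := fun a => le_trans (le_max_right _ _) (le_max_left _ _)
  have hl'3 : ∀ a, a ∈ s.C → s.φ a ≤ n → I a ≤ l' a := by
    intro a ha hφ
    have h1 : (if a ∈ {a | a ∈ s.C ∧ s.φ a ≤ n} then I a else 0) = I a := if_pos ⟨ha, hφ⟩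
    exact le_trans h1.ge (le_max_right _ _)
  let φ' : ι → ℕ := fun a => if a ∈ s.C then s.φ a else Nat.pair n (g a)
  have hφ1 : ∀ a ∈ s.C, φ' a = s.φ a := fun a ha => if_pos ha
  have hφ2 : ∀ a, a ∉ s.C → φ' a = Nat.pair n (g a) := fun a ha => if_neg ha
  let s' : State V ι :=
    { Q := Q
      l := l'
      C := s.C ∪ {a | Q a ≠ s.Q a}
      φ := φ'
      X := s.X ∪ ⋃ a ∈ {a | a ∈ s.C ∧ s.φ a ≤ n}, {v | v ∈ (p a).support} }
  have hgood : Good ω K (n + 1) s' := by
    refine ⟨hQ.mem, hQ.dis, ?_, ?_, ?_, hC', ?_, ?_, ?_⟩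
    · intro a
      have h1 : Q a 0 = s.Q a 0 := hQ.agree a 0 (Nat.zero_le _)
      exact h1.trans (hs.start a)
    · refine ((hs.fin.union hTfin).union hB).subset fun a ha => ?_
      by_contra hne
      simp only [Set.mem_union, Set.mem_setOf_eq, not_or, not_not] at hne
      obtain ⟨⟨h1, h2⟩, h3⟩ := hne
      apply ha
      have h4 : (if a ∈ {a | a ∈ s.C ∧ s.φ a ≤ n} then I a else 0) = 0 := if_neg h3
      have h5 : l' a = max (max (s.l a) (T a))
        (if a ∈ {a | a ∈ s.C ∧ s.φ a ≤ n} then I a else 0) := rfl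
      have h6 : l' a = 0 := by rw [h5, h4, h1, h2]; rfl
      exact h6
    · intro a ha
      have h1 : a ∉ s.C := fun h => ha (Or.inl h)
      have h2 : Q a = s.Q a := by
        by_contra hne
        exact ha (Or.inr hne)
      exact h2.trans (hs.off a h1)
    · intro a ha b hb hab
      have hab' : φ' a = φ' b := hab
      by_cases h1 : a ∈ s.C <;> by_cases h2 : b ∈ s.C
      · rw [hφ1 a h1, hφ1 b h2] at hab'
        exact hs.inj h1 h2 hab'
      · rw [hφ1 a h1, hφ2 b h2] at hab'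
        have h3 := hs.rank a h1
        rw [hab', Nat.unpair_pair] at h3
        exact absurd h3 (lt_irrefl _)
      · rw [hφ2 a h1, hφ1 b h2] at hab'
        have h3 := hs.rank b h2
        rw [← hab', Nat.unpair_pair] at h3
        exact absurd h3 (lt_irrefl _)
      · rw [hφ2 a h1, hφ2 b h2] at hab'
        have h3 := (Nat.pair_eq_pair.mp hab').2
        exact hg ha hb h3
    · intro a ha
      change (φ' a).unpair.1 < n + 1
      by_cases h1 : a ∈ s.C
      · rw [hφ1 a h1]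
        exact lt_trans (hs.rank a h1) (Nat.lt_succ_self n)
      · rw [hφ2 a h1, Nat.unpair_pair]
        exact Nat.lt_succ_self n
    · exact hs.finX.union (hB.biUnion fun a _ => List.finite_toSet _)
  refine ⟨s', hgood, ⟨hl'1, hQ.agree, Set.subset_union_left, hφ1, Set.subset_union_left⟩, ?_, ?_⟩
  · intro hP
    obtain ⟨a, i, hi, h⟩ := htask hP
    exact ⟨a, i, le_trans hi (hl'2 a), h⟩
  · intro a ha hφ
    refine ⟨lt_of_lt_of_le (hlI a) (hl'3 a ha hφ), I a, I a, (hlI a).le, hnI a, hl'3 a ha hφ, hnI a,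
      p a, hp a, ?_⟩
    intro v hv
    refine Or.inr ?_
    simp only [Set.mem_iUnion]
    exact ⟨a, ⟨ha, hφ⟩, hv⟩

end DV
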